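import Pool.Agent.X22.HP

/-!
# The Tauberian Tate conjecture for divisors on products of two curves: all the products of several hyperelliptic curves with coefficients in arbitrarily thin families

Nothing is used besides Mathlib in the statement.
-/

set_option autoImplicit false

namespace Pool.Agent.Results.MP_4589ac_nt.FewDigitCurveProducts

open Finset Polynomial

/-- The polynomial `X ^ n + ∑ v_j X ^ j`. -/
noncomputable def poly (R : Type) [CommRing R] {n : ℕ} (v : Fin n → R) : R[X] := X ^ n + ∑ j, C (v j) * X ^ (j : ℕ)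

/-- The coefficients of the `i`-th polynomial, of degree `2 g_i + 1`: all the coefficients of all the `r` polynomials are numbered by `0, ..., d - 1` with a bijection `e`. -/
def block {r d : ℕ} {g : Fin r → ℕ} (e : (Σ i, Fin (2 * g i + 1)) ≃ Fin d) {R : Type} (m : Fin d → R) (i : Fin r) : Fin (2 * g i + 1) → R :=
  fun j => m (e ⟨i, j⟩)

/-- The trace `a_p` of the Frobenius on `H ^ 1` of the curve `Y ^ 2 = X ^ n + ∑ m_j X ^ j`, `n` odd, of good reduction at the odd prime `p`: `p` minus the number of the affine points modulo `p`. -/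
noncomputable def trace (p : ℕ) {n : ℕ} (m : Fin n → ℕ) : ℤ :=
  p - Nat.card {P : ZMod p × ZMod p // P.2 ^ 2 = (poly (ZMod p) (fun j => (m j : ZMod p))).eval P.1}

/-- The trace `b_p` of the Frobenius on `H ^ 2` of the product of two curves with the traces `a`, `a'` on `H ^ 1`: by Künneth's formula `H ^ 2` is the sum of two
copies of the Tate twist `ℚ_l (-1)` and of the tensor product of the two `H ^ 1`. -/
noncomputable def b2 (p : ℕ) (a a' : ℤ) : ℤ := 2 * p + a * a'

open Classical in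
/-- The sum `∑ w (p) (b_p / p - ρ) (log p) p ^ (- i τ)` for the surface `V = C_i × C_j`, where `C_i : Y ^ 2 = f_i (X)` and `f_i` is the polynomial with the coefficients `block e m i`, over the
odd primes `p ≤ x` modulo which neither `f_i` nor `f_j` has multiple roots; here `ρ = 2` if `i ≠ j` and `ρ = 3` if `i = j`. -/
noncomputable def partialSum {r d : ℕ} {g : Fin r → ℕ} (e : (Σ i, Fin (2 * g i + 1)) ≃ Fin d) (m : Fin d → ℕ) (i j : Fin r) (w : ℕ → ℂ) (τ : ℝ) (x : ℕ) : ℂ :=
  ∑ p ∈ (range (x + 1)).filter (fun p => (p.Prime ∧ p ≠ 2) ∧ (poly (ZMod p) (fun l => ((block e m i l : ℕ) : ZMod p))).Separable ∧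
      (poly (ZMod p) (fun l => ((block e m j l : ℕ) : ZMod p))).Separable),
    w p * ((((b2 p (trace p (block e m i)) (trace p (block e m j)) : ℤ) : ℝ) / p - (if i = j then 3 else 2)) * Real.log p : ℝ) *
      Complex.exp (((-(τ * Real.log p) : ℝ) : ℂ) * Complex.I)

/-- The digit number `i` (counted from the right, beginning with `0`) of `n` in base `b`. -/
def digit (b i n : ℕ) : ℕ := n / b ^ i % b

/-- The number which arises from the number `N` with at most `K` digits in base `b`, if for every `i ∈ S`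
the digit number `i` is replaced by `f i`. -/
def change (b K N : ℕ) (f : ℕ → ℕ) (S : Finset ℕ) : ℕ :=
  ∑ i ∈ range K, (if i ∈ S then f i else digit b i N) * b ^ i

open Classical in
/-- The number of the choices of `s l` of `K l` positions for all `l < d` for which the vector of the numbers obtained by
changing the digits of the `N l` at the chosen positions (according to `f l`) does not have the property `E`. -/
noncomputable def exceptions {d : ℕ} (b : ℕ) (K s N : Fin d → ℕ) (f : Fin d → ℕ → ℕ) (E : (Fin d → ℕ) → Prop) : ℕ :=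
  ((Fintype.piFinset (fun l => powersetCard (s l) (range (K l)))).filter
    (fun S => ¬ E (fun l => change b (K l) (N l) (f l) (S l)))).card

open Pool.Agent.X22.ND (op mem_op mzd_law absorb hp norm_hp mean_mono mean_zmod cardop_le sum_inv_sqrt)
open Pool.Agent.X22.HE
open Pool.Agent.TH894.NE (mean mean_mul mean_const)

section
variable {r d : ℕ} {g : Fin r → ℕ} (e : (Σ i, Fin (2 * g i + 1)) ≃ Fin d)

lemma block_inj (i : Fin r) : Function.Injective (fun j : Fin (2 * g i + 1) => (e ⟨i, j⟩ : Fin d)) := by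
  intro j k h
  have h1 := e.injective h
  simpa using h1

lemma trace_tz (p : ℕ) (hp' : p.Prime) {n : ℕ} (m : Fin n → ℕ) : haveI : Fact p.Prime := ⟨hp'⟩
    trace p m = tz (fun j => (m j : ZMod p)) := rfl

open Classical in
/-- the value modulo `p` -/
noncomputable def vz (p : ℕ) (hp' : p.Prime) (i j : Fin r) (v : Fin d → ZMod p) : ℝ :=
  haveI : Fact p.Prime := ⟨hp'⟩
  if (F (ZMod p) (block e v i)).Separable ∧ (F (ZMod p) (block e v j)).Separable then
    ((tz (block e v i) * tz (block e v j) : ℤ) : ℝ) / p - (if i = j then 1 else 0) else 0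

open Classical in
/-- the value at `m` -/
noncomputable def vm (p : ℕ) (i j : Fin r) (m : Fin d → ℕ) : ℝ :=
  if (poly (ZMod p) (fun l => ((block e m i l : ℕ) : ZMod p))).Separable ∧ (poly (ZMod p) (fun l => ((block e m j l : ℕ) : ZMod p))).Separable then
    ((trace p (block e m i) * trace p (block e m j) : ℤ) : ℝ) / p - (if i = j then 1 else 0) else 0

lemma vm_eq (p : ℕ) (hp' : p.Prime) (i j : Fin r) (m : Fin d → ℕ) :
    vm e p i j m = vz e p hp' i j (fun l => (m l : ZMod p)) := rfl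

/-- the sum of the genera -/
def S {r : ℕ} (g : Fin r → ℕ) : ℕ := ∑ i, g i

lemma prod_bound (x y gi gj T q : ℝ) (h1 : |x| ≤ 2 * gi * Real.sqrt q) (h2 : |y| ≤ 2 * gj * Real.sqrt q) (hi : gi ≤ T) (hj : gj ≤ T)
    (hi0 : 0 ≤ gi) (hj0 : 0 ≤ gj) (hq : 0 < q) : |x * y / q| ≤ 4 * T ^ 2 := by
  have hs : Real.sqrt q * Real.sqrt q = q := Real.mul_self_sqrt hq.le
  have hT : 0 ≤ T := hi0.trans hi
  have hTq : 0 ≤ 2 * T * Real.sqrt q := by positivity
  rw [abs_div, abs_of_pos hq, div_le_iff₀ hq, abs_mul]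
  calc |x| * |y| ≤ (2 * gi * Real.sqrt q) * (2 * gj * Real.sqrt q) := mul_le_mul h1 h2 (abs_nonneg _) (by positivity)
    _ ≤ (2 * T * Real.sqrt q) * (2 * T * Real.sqrt q) := by gcongr
    _ = 4 * T ^ 2 * (Real.sqrt q * Real.sqrt q) := by ring
    _ = _ := by rw [hs]

lemma vz_abs (p : ℕ) (hp' : p.Prime) (h2 : p ≠ 2) (i j : Fin r) (v : Fin d → ZMod p) :
    |vz e p hp' i j v| ≤ 4 * (S g : ℝ) ^ 2 + 1 := by
  have hf : Fact p.Prime := ⟨hp'⟩
  have hp0 : (0 : ℝ) < p := by exact_mod_cast hp'.pos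
  have hS : ∀ i, (g i : ℝ) ≤ S g := by
    intro i
    have : g i ≤ S g := single_le_sum (f := g) (fun _ _ => Nat.zero_le _) (mem_univ i)
    exact_mod_cast this
  have e1 := tz_bound h2 (block e v i)
  have e2 := tz_bound h2 (block e v j)
  have e3 : |((tz (block e v i) * tz (block e v j) : ℤ) : ℝ) / p| ≤ 4 * (S g : ℝ) ^ 2 := by
    rw [Int.cast_mul]
    exact prod_bound _ _ _ _ _ _ e1 e2 (hS i) (hS j) (Nat.cast_nonneg _) (Nat.cast_nonneg _) hp0
  obtain ⟨X, hX⟩ : ∃ X : ℝ, X = ((tz (block e v i) * tz (block e v j) : ℤ) : ℝ) / p := ⟨_, rfl⟩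
  rw [← hX] at e3
  unfold vz
  rw [← hX]
  split_ifs with h3 h4
  · refine (abs_sub _ _).trans ?_
    rw [abs_one]
    linarith
  · rw [sub_zero]
    linarith
  · rw [abs_zero]
    positivity

/-- for two different curves the sum vanishes -/
lemma sum_vz_ne (p : ℕ) (hp' : p.Prime) (h2 : p ≠ 2) (i j : Fin r) (hij : i ≠ j) : haveI : Fact p.Prime := ⟨hp'⟩
    ∑ v, vz e p hp' i j v = 0 := by
  have hf : Fact p.Prime := ⟨hp'⟩
  have h3 : ringChar (ZMod p) ≠ 2 := by
    rw [ZMod.ringChar_zmod_n]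
    exact h2
  obtain ⟨D, hD⟩ : ∃ D : ZMod p, quadraticChar (ZMod p) D = -1 := quadraticChar_exists_neg_one h3
  have hD0 : D ≠ 0 := by
    rintro rfl
    rw [quadraticChar_zero] at hD
    omega
  obtain ⟨c, hc⟩ : ∃ c : Fin d → ZMod p, ∀ l, c l = if (e.symm l).1 = i then
      D ^ (2 * g (e.symm l).1 + 1 - ((e.symm l).2 : ℕ)) else 1 := ⟨_, fun _ => rfl⟩
  have hc0 : ∀ l, c l ≠ 0 := by
    intro l
    rw [hc]
    split_ifs
    · exact pow_ne_zero _ hD0
    · exact one_ne_zero
  obtain ⟨σ, hσ⟩ : ∃ σ : (Fin d → ZMod p) ≃ (Fin d → ZMod p), ∀ v l, σ v l = c l * v l :=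
    ⟨Equiv.piCongrRight (fun l => Equiv.mulLeft₀ (c l) (hc0 l)), fun v l => rfl⟩
  have hbi : ∀ v, block e (σ v) i = fun k : Fin (2 * g i + 1) => D ^ (2 * g i + 1 - (k : ℕ)) * block e v i k := by
    intro v
    funext k
    unfold block
    rw [hσ, hc, Equiv.symm_apply_apply]
    simp
  have hbj : ∀ v, block e (σ v) j = block e v j := by
    intro v
    funext k
    unfold block
    rw [hσ, hc, Equiv.symm_apply_apply]
    simp [hij.symm]
  have h1 : ∀ v, vz e p hp' i j (σ v) = -vz e p hp' i j v := by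
    intro v
    have e1 : (F (ZMod p) (block e (σ v) i)).Separable ↔ (F (ZMod p) (block e v i)).Separable := by
      rw [hbi v]
      exact sep_twist (block e v i) D hD0
    unfold vz
    rw [if_neg hij, sub_zero, sub_zero, hbj v]
    by_cases hs : (F (ZMod p) (block e v i)).Separable ∧ (F (ZMod p) (block e v j)).Separable
    · rw [if_pos hs, if_pos ⟨e1.2 hs.1, hs.2⟩, hbi v, tz_twist h2 (block e v i) D hD]
      push_cast
      ring
    · rw [if_neg hs, if_neg (fun h => hs ⟨e1.1 h.1, h.2⟩), neg_zero]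
  have h4 : ∑ v, vz e p hp' i j v = -∑ v, vz e p hp' i j v := by
    calc ∑ v, vz e p hp' i j v = ∑ v, vz e p hp' i j (σ v) := (Equiv.sum_comp σ _).symm
      _ = ∑ v, -vz e p hp' i j v := sum_congr rfl (fun v _ => h1 v)
      _ = _ := sum_neg_distrib _
  linarith

/-- for one curve the sum is small -/
lemma sum_vz_eq (hg : ∀ i, 1 ≤ g i) (p : ℕ) (hp' : p.Prime) (h2 : p ≠ 2) (i : Fin r) : haveI : Fact p.Prime := ⟨hp'⟩
    |∑ v, vz e p hp' i i v| ≤ (1 + (4 * (S g : ℝ) ^ 2 + 1) * (2 * S g + 1)) * ((p : ℝ) ^ d / p) := by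
  classical
  have hf : Fact p.Prime := ⟨hp'⟩
  have hp0 : (0 : ℝ) < p := by exact_mod_cast hp'.pos
  obtain ⟨G, hG⟩ : ∃ G : ℝ, G = 4 * (S g : ℝ) ^ 2 + 1 := ⟨_, rfl⟩
  have hG1 : 1 ≤ G := by
    rw [hG]
    nlinarith [sq_nonneg (S g : ℝ)]
  have hall : ∀ v : Fin d → ZMod p, |((tz (block e v i) : ℤ) : ℝ) ^ 2 / p - 1| ≤ G := by
    intro v
    have e1 := tz_bound h2 (block e v i)
    have hs : Real.sqrt p ^ 2 = p := Real.sq_sqrt hp0.le
    have hS : (g i : ℝ) ≤ S g := by
      have : g i ≤ S g := single_le_sum (f := g) (fun _ _ => Nat.zero_le _) (mem_univ i)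
      exact_mod_cast this
    have e3 : ((tz (block e v i) : ℤ) : ℝ) ^ 2 / p ≤ 4 * (S g : ℝ) ^ 2 := by
      rw [div_le_iff₀ hp0, ← sq_abs]
      calc |((tz (block e v i) : ℤ) : ℝ)| ^ 2 ≤ (2 * g i * Real.sqrt p) ^ 2 := pow_le_pow_left₀ (abs_nonneg _) e1 2
        _ ≤ (2 * S g * Real.sqrt p) ^ 2 := by gcongr
        _ = 4 * (S g : ℝ) ^ 2 * (Real.sqrt p ^ 2) := by ring
        _ = _ := by rw [hs]
    have e4 : 0 ≤ ((tz (block e v i) : ℤ) : ℝ) ^ 2 / p := by positivity
    rw [abs_le, hG]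
    constructor
    · nlinarith [sq_nonneg (S g : ℝ)]
    · linarith
  have hsplit : ∀ v, vz e p hp' i i v = (((tz (block e v i) : ℤ) : ℝ) ^ 2 / p - 1) -
      (((tz (block e v i) : ℤ) : ℝ) ^ 2 / p - 1) * (if (F (ZMod p) (block e v i)).Separable then (0 : ℝ) else 1) := by
    intro v
    unfold vz
    by_cases hs : (F (ZMod p) (block e v i)).Separable
    · rw [if_pos ⟨hs, hs⟩, if_pos rfl, if_pos hs]
      push_cast
      ring
    · rw [if_neg (fun h => hs h.1), if_neg hs]
      ring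
  rw [sum_congr rfl (fun v _ => hsplit v), sum_sub_distrib]
  have hgi := hg i
  have hsec := tz_second (p := p) h2 (by omega : 2 ≤ 2 * g i + 1) (fun k : Fin (2 * g i + 1) => (e ⟨i, k⟩ : Fin d)) (block_inj e i)
  have h5 : ∑ v : Fin d → ZMod p, (((tz (block e v i) : ℤ) : ℝ) ^ 2 / p - 1) = -((p : ℝ) ^ d / p) := by
    rw [sum_sub_distrib, ← sum_div, sum_const, card_univ, Fintype.card_fun, ZMod.card, Fintype.card_fin, nsmul_eq_mul, mul_one]
    have e6 : ∑ v : Fin d → ZMod p, ((tz (block e v i) : ℤ) : ℝ) ^ 2 = p * ((p : ℝ) ^ d * (1 - 1 / p)) := hsec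
    rw [e6]
    push_cast
    field_simp
    ring
  have hbad := bad_sum (p := p) (by omega : 1 ≤ 2 * g i + 1) (fun k : Fin (2 * g i + 1) => (e ⟨i, k⟩ : Fin d)) (block_inj e i)
  have h6 : |∑ v : Fin d → ZMod p, (((tz (block e v i) : ℤ) : ℝ) ^ 2 / p - 1) *
      (if (F (ZMod p) (block e v i)).Separable then (0 : ℝ) else 1)| ≤ G * ((2 * S g + 1) * ((p : ℝ) ^ d / p)) := by
    refine (abs_sum_le_sum_abs _ _).trans ?_
    have h7 : ∀ v ∈ (univ : Finset (Fin d → ZMod p)), |(((tz (block e v i) : ℤ) : ℝ) ^ 2 / p - 1) *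
        (if (F (ZMod p) (block e v i)).Separable then (0 : ℝ) else 1)| ≤ G * (if (F (ZMod p) (block e v i)).Separable then (0 : ℝ) else 1) := by
      intro v _
      rw [abs_mul]
      have h8 : |(if (F (ZMod p) (block e v i)).Separable then (0 : ℝ) else 1)| = (if (F (ZMod p) (block e v i)).Separable then (0 : ℝ) else 1) := by
        split_ifs <;> simp
      rw [h8]
      apply mul_le_mul_of_nonneg_right (hall v)
      split_ifs <;> norm_num
    refine (sum_le_sum h7).trans ?_
    rw [← mul_sum]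
    apply mul_le_mul_of_nonneg_left _ (by linarith)
    refine hbad.trans ?_
    apply mul_le_mul_of_nonneg_right _ (by positivity)
    have hS : (g i : ℝ) ≤ S g := by
      have : g i ≤ S g := single_le_sum (f := g) (fun _ _ => Nat.zero_le _) (mem_univ i)
      exact_mod_cast this
    push_cast
    linarith
  rw [h5]
  refine (abs_sub _ _).trans ?_
  rw [abs_neg, abs_of_nonneg (by positivity : (0 : ℝ) ≤ (p : ℝ) ^ d / p), ← hG]
  refine (add_le_add_right h6 _).trans (le_of_eq ?_)
  ring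

lemma mean_vm (hg : ∀ i, 1 ≤ g i) (p : ℕ) (hp' : p.Prime) (h2 : p ≠ 2) (i j : Fin r) :
    |mean d p (fun m => vm e p i j m)| ≤ (1 + (4 * (S g : ℝ) ^ 2 + 1) * (2 * S g + 1)) / p := by
  have hf : Fact p.Prime := ⟨hp'⟩
  have hp0 : (0 : ℝ) < p := by exact_mod_cast hp'.pos
  have h1 := mean_zmod d p hp' (fun v => vz e p hp' i j v)
  have e1 : (fun m : Fin d → ℕ => vz e p hp' i j (fun i => (m i : ZMod p))) = fun m => vm e p i j m := by
    funext m
    rw [vm_eq e p hp']
  rw [e1] at h1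
  rw [h1, abs_div, abs_of_pos (by positivity : (0 : ℝ) < (p : ℝ) ^ d)]
  rw [div_le_iff₀ (by positivity)]
  by_cases hij : i = j
  · subst hij
    refine (sum_vz_eq e hg p hp' h2 i).trans (le_of_eq ?_)
    ring
  · rw [sum_vz_ne e p hp' h2 i j hij, abs_zero]
    positivity

end

/-- **The Tauberian Tate conjecture for the products of curves in thin families.** Let a base `b ≥ 2`, genera `g_1, ..., g_r ≥ 1`, a numbering `e` of all the
coefficients of `r` polynomials `f_i` of the degrees `2 g_i + 1`, `A ≥ 0` and `δ > 0` be given. There are `c > 0` and `y₀` such that for all integers `s l`, `K l` (one for every coefficient), `y` with `2 s l ≤ K l` and `y ≥ y₀` the following holds.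

Let `0 ≤ N l < b ^ K l` be arbitrary integers, prescribe for every position `j` a digit `f l j` different from the digit of
`N l` in base `b`, and let `W x` be for every `x` any set of at most `x ^ A` complex functions `w` with `|w (p)| ≤ 1` on the primes (for instance the function `1`, or
the number of the primes of degree one of a number field `k` above `p`, divided by `[k : ℚ]`).
If one chooses `s l` of the `K l` positions and replaces the digits of `N l` at these positions, then for all but at most a proportion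
`1 / y ^ A` of the choices the curves `C_1, ..., C_r` of the genera `g_1, ..., g_r` with the coefficients
obtained have the following property: for all integers `x` with `y ≤ x ≤ exp (c s l)` for all `l`, all `w ∈ W x`, all `i, j` and all real `τ` with `|τ| ≤ x ^ A`,
the numbers `b_p` for the surface `V = C_i × C_j` satisfy
`|∑ w (p) (b_p / p - ρ) (log p) p ^ (-i τ)| ≤ x ^ (1 / 2 + δ)`, the sum running over the odd primes `p ≤ x` modulo which neither polynomial has multiple roots, with `ρ = 2` if `i ≠ j` and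
`ρ = 3` if `i = j`. -/
theorem result (b r d : ℕ) (g : Fin r → ℕ) (e : (Σ i, Fin (2 * g i + 1)) ≃ Fin d) (hb : 2 ≤ b) (hr : 1 ≤ r) (hg : ∀ i, 1 ≤ g i) (δ : ℝ) (hδ : 0 < δ) (A : ℕ) :
    ∃ c : ℝ, 0 < c ∧ ∃ y₀ : ℕ,
    ∀ (K s : Fin d → ℕ) (y : ℕ), (∀ l, 2 * s l ≤ K l) → y₀ ≤ y →
    ∀ N : Fin d → ℕ, (∀ l, N l < b ^ K l) → ∀ f : Fin d → ℕ → ℕ, (∀ l j, f l j < b ∧ f l j ≠ digit b j (N l)) →
    ∀ (W : ℕ → Finset (ℕ → ℂ)), (∀ x, ∀ w ∈ W x, ∀ p, ‖w p‖ ≤ 1) → (∀ x, (W x).card ≤ x ^ A) →
      (exceptions b K s N f (fun m => ∀ x : ℕ, y ≤ x → (∀ l, (x : ℝ) ≤ Real.exp (c * s l)) → ∀ w ∈ W x, ∀ i j : Fin r, ∀ τ : ℝ, |τ| ≤ (x : ℝ) ^ A →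
          ‖partialSum e m i j w τ x‖ ≤ (x : ℝ) ^ (1 / 2 + δ)) : ℝ) ≤
        1 / (y : ℝ) ^ A * ∏ l, ((K l).choose (s l) : ℝ) := by
  classical
  have hd1 : 1 ≤ d := by
    have := (e ⟨⟨0, hr⟩, ⟨0, by omega⟩⟩).2
    omega
  obtain ⟨G, hG⟩ : ∃ G : ℝ, G = 4 * (S g : ℝ) ^ 2 + 1 := ⟨_, rfl⟩
  have hG1 : 1 ≤ G := by
    rw [hG]
    nlinarith [sq_nonneg (S g : ℝ)]
  obtain ⟨H, hH⟩ : ∃ H : ℝ, H = 4 * (1 + G * (2 * S g + 1)) := ⟨_, rfl⟩
  have hS0 : (0 : ℝ) ≤ S g := Nat.cast_nonneg _
  have hHG : G ≤ H := by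
    rw [hH]
    nlinarith
  have hH0 : 0 ≤ H := by linarith
  obtain ⟨c, hc, y₀, h⟩ := mzd_law b d hb hd1 (δ / 2) (by positivity) A (A + r * r) A
  obtain ⟨x₁, hx₁⟩ := absorb H (δ / 2) hH0 (by positivity)
  refine ⟨c, hc, y₀ + x₁ + 2, fun K s y hrK hy N hN f hf W hw hW => ?_⟩
  obtain ⟨Z, hZ⟩ : ∃ Z : ℕ → (ℕ → ℂ) × (Fin r × Fin r) → ℕ → (Fin d → ℕ) → ℂ, Z = fun _ (q : (ℕ → ℂ) × (Fin r × Fin r)) p m =>
      q.1 p * ((vm e p q.2.1 q.2.2 m * Real.log p : ℝ) : ℂ) := ⟨_, rfl⟩
  obtain ⟨Λ, hΛ⟩ : ∃ Λ : ℕ → Finset ((ℕ → ℂ) × (Fin r × Fin r)), Λ = fun x => (W x) ×ˢ univ := ⟨_, rfl⟩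
  have hZ1 : ∀ x, ∀ q ∈ Λ x, ∀ p ∈ op x, ∀ m, ‖Z x q p m‖ ≤ G * (Real.log x + 1) := by
    intro x q hq p hp' m
    rw [hΛ, mem_product] at hq
    rw [mem_op] at hp'
    have hp1 : (1 : ℝ) ≤ p := by exact_mod_cast hp'.2.1.one_lt.le
    have hpx : (p : ℝ) ≤ x := by exact_mod_cast hp'.1
    have hlp : 0 ≤ Real.log p := Real.log_nonneg hp1
    have hlx : Real.log p ≤ Real.log x := Real.log_le_log (by linarith) hpx
    rw [hZ]
    simp only
    rw [norm_mul, Complex.norm_real, Real.norm_eq_abs, abs_mul, abs_of_nonneg hlp]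
    have h3 : |vm e p q.2.1 q.2.2 m| ≤ G := by
      rw [vm_eq e p hp'.2.1, hG]
      exact vz_abs e p hp'.2.1 hp'.2.2 _ _ _
    have h4 := hw x q.1 hq.1 p
    calc ‖q.1 p‖ * (|vm e p q.2.1 q.2.2 m| * Real.log p) ≤ 1 * (G * (Real.log x + 1)) := by
          gcongr
          linarith
      _ = _ := one_mul _
  have h2 := h K s y hrK (by omega) N hN f hf _ Λ (by
      intro x hx
      rw [hΛ]
      simp only
      rw [card_product, pow_add]
      apply Nat.mul_le_mul (hW x)
      rw [card_univ, Fintype.card_prod, Fintype.card_fin]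
      calc r * r ≤ 2 ^ (r * r) := (Nat.lt_two_pow_self).le
        _ ≤ x ^ (r * r) := Nat.pow_le_pow_left hx _) Z (by
      intro x q p m hp'
      rw [hZ]
      simp only
      rw [vm_eq e p hp', vm_eq e p hp']
      simp only [ZMod.natCast_mod]) (fun x q => H * (Real.sqrt x * (Real.log x + 1))) (by
      intro x hx q _
      have : 0 ≤ Real.log x := Real.log_natCast_nonneg x
      positivity) ?_ ?_ ?_
    (fun m => ∀ x : ℕ, y ≤ x → (∀ l, (x : ℝ) ≤ Real.exp (c * s l)) → ∀ w ∈ W x, ∀ i j : Fin r, ∀ τ : ℝ, |τ| ≤ (x : ℝ) ^ A →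
          ‖partialSum e m i j w τ x‖ ≤ (x : ℝ) ^ (1 / 2 + δ)) ?_
  · unfold exceptions
    exact h2
  · -- the bound
    intro x hx q hq p hp' m
    refine (hZ1 x q hq p hp' m).trans ?_
    have hx1 : (1 : ℝ) ≤ x := by exact_mod_cast (by omega : 1 ≤ x)
    have hlx0 : 0 ≤ Real.log x := Real.log_natCast_nonneg x
    have hs1 : 1 ≤ Real.sqrt x := Real.one_le_sqrt.2 hx1
    calc G * (Real.log x + 1) ≤ H * (1 * (Real.log x + 1)) := by
          rw [one_mul]
          gcongr
      _ ≤ H * (Real.sqrt x * (Real.log x + 1)) := by gcongr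
  · -- the means
    intro x hx q hq
    rw [hΛ, mem_product] at hq
    have hlx0 : 0 ≤ Real.log x := Real.log_natCast_nonneg x
    have hone : ∀ p ∈ op x, |mean d p (fun m => (Z x q p m).re)| + |mean d p (fun m => (Z x q p m).im)| ≤
        (2 * (1 + G * (2 * S g + 1)) * (Real.log x + 1)) * (1 / Real.sqrt p) := by
      intro p hp'
      rw [mem_op] at hp'
      have hp1 : (1 : ℝ) ≤ p := by exact_mod_cast hp'.2.1.one_lt.le
      have hp0 : (0 : ℝ) < p := by linarith
      have hpx : (p : ℝ) ≤ x := by exact_mod_cast hp'.1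
      have hlp : 0 ≤ Real.log p := Real.log_nonneg hp1
      have hlx : Real.log p ≤ Real.log x := Real.log_le_log (by linarith) hpx
      have er : (fun m : Fin d → ℕ => (Z x q p m).re) = fun m => ((q.1 p).re * Real.log p) * vm e p q.2.1 q.2.2 m := by
        funext m
        rw [hZ]
        simp only
        rw [Complex.re_mul_ofReal]
        ring
      have ei : (fun m : Fin d → ℕ => (Z x q p m).im) = fun m => ((q.1 p).im * Real.log p) * vm e p q.2.1 q.2.2 m := by
        funext m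
        rw [hZ]
        simp only
        rw [Complex.im_mul_ofReal]
        ring
      have h5 := mean_vm e hg p hp'.2.1 hp'.2.2 q.2.1 q.2.2
      rw [← hG] at h5
      have h6 : (1 + G * (2 * S g + 1)) / p ≤ (1 + G * (2 * S g + 1)) * (1 / Real.sqrt p) := by
        rw [div_eq_mul_one_div]
        have hsq : Real.sqrt p ≤ p := by
          rw [Real.sqrt_le_left (by linarith)]
          nlinarith
        have hsp : 0 < Real.sqrt p := Real.sqrt_pos.2 hp0
        gcongr
      have h7 : |(q.1 p).re| ≤ 1 := (Complex.abs_re_le_norm _).trans (hw x q.1 hq.1 p)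
      have h8 : |(q.1 p).im| ≤ 1 := (Complex.abs_im_le_norm _).trans (hw x q.1 hq.1 p)
      rw [er, ei, mean_mul, mean_mul, abs_mul, abs_mul, abs_mul, abs_mul, abs_of_nonneg hlp]
      have h9 : ∀ t : ℝ, |t| ≤ 1 → |t| * Real.log p * |mean d p (fun m => vm e p q.2.1 q.2.2 m)| ≤
          ((1 + G * (2 * S g + 1)) * (Real.log x + 1)) * (1 / Real.sqrt p) := by
        intro t ht
        calc |t| * Real.log p * |mean d p (fun m => vm e p q.2.1 q.2.2 m)|
            ≤ 1 * (Real.log x + 1) * ((1 + G * (2 * S g + 1)) * (1 / Real.sqrt p)) := by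
              have := h5.trans h6
              gcongr
              linarith
          _ = _ := by ring
      have h10 := h9 _ h7
      have h11 := h9 _ h8
      linarith
    refine (sum_le_sum hone).trans ?_
    rw [← mul_sum]
    have h12 := sum_inv_sqrt x
    have h13 : (0 : ℝ) ≤ 2 * (1 + G * (2 * S g + 1)) * (Real.log x + 1) := by positivity
    calc (2 * (1 + G * (2 * S g + 1)) * (Real.log x + 1)) * ∑ p ∈ op x, 1 / Real.sqrt p
        ≤ (2 * (1 + G * (2 * S g + 1)) * (Real.log x + 1)) * (2 * Real.sqrt x) := mul_le_mul_of_nonneg_left h12 h13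
      _ = H * (Real.sqrt x * (Real.log x + 1)) := by
          rw [hH]
          ring
  · -- the variance
    intro x hx q hq
    have hx0 : (0 : ℝ) ≤ x := Nat.cast_nonneg x
    have hlx0 : 0 ≤ Real.log x := Real.log_natCast_nonneg x
    have hone : ∀ p ∈ op x, mean d p (fun m => ‖Z x q p m‖ ^ 2) ≤ (G * (Real.log x + 1)) ^ 2 := by
      intro p hp'
      have h3 := mean_mono d p (fun m => ‖Z x q p m‖ ^ 2) (fun _ => (G * (Real.log x + 1)) ^ 2) (fun m => by
        exact pow_le_pow_left₀ (norm_nonneg _) (hZ1 x q hq p hp' m) 2)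
      refine h3.trans (le_of_eq ?_)
      rw [mem_op] at hp'
      exact mean_const d p hp'.2.1.one_lt.le _
    refine (sum_le_sum hone).trans ?_
    rw [sum_const, nsmul_eq_mul]
    have hsx : Real.sqrt x * Real.sqrt x = x := Real.mul_self_sqrt hx0
    calc ((op x).card : ℝ) * (G * (Real.log x + 1)) ^ 2 ≤ x * (H * (Real.log x + 1)) ^ 2 := by
          have := cardop_le x
          gcongr
      _ = (Real.sqrt x * Real.sqrt x) * (H * (Real.log x + 1)) ^ 2 := by rw [hsx]
      _ = _ := by ring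
  · -- the conclusion
    intro m hm x hyx hxr w hwx i j τ hτ
    have hx0 : (0 : ℝ) < x := by exact_mod_cast (by omega : 0 < x)
    have hx1 : (1 : ℝ) ≤ x := by exact_mod_cast (by omega : 1 ≤ x)
    have hlx0 : 0 ≤ Real.log x := Real.log_natCast_nonneg x
    have e1 : partialSum e m i j w τ x = ∑ p ∈ op x, Z x (w, (i, j)) p m * hp τ p := by
      unfold partialSum
      rw [← filter_filter, sum_filter]
      apply sum_congr rfl
      intro p hp'
      have hp2 : p ∈ op x := hp'
      rw [mem_op] at hp2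
      have hp0 : (p : ℝ) ≠ 0 := by exact_mod_cast hp2.2.1.ne_zero
      rw [hZ]
      simp only
      unfold vm
      by_cases hs : (poly (ZMod p) (fun l => ((block e m i l : ℕ) : ZMod p))).Separable ∧ (poly (ZMod p) (fun l => ((block e m j l : ℕ) : ZMod p))).Separable
      · rw [if_pos hs, if_pos hs]
        have e7 : ((b2 p (trace p (block e m i)) (trace p (block e m j)) : ℤ) : ℝ) / p - (if i = j then 3 else 2) =
            ((trace p (block e m i) * trace p (block e m j) : ℤ) : ℝ) / p - (if i = j then 1 else 0) := by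
          unfold b2
          push_cast
          rw [add_div, mul_div_assoc, div_self hp0]
          split_ifs <;> ring
        rw [e7]
        rfl
      · rw [if_neg hs, if_neg hs]
        simp
    have h4 := hm x hyx hxr (w, (i, j)) (by
      rw [hΛ, mem_product]
      exact ⟨hwx, mem_univ _⟩) τ hτ
    have h6 := hx₁ x (by omega)
    have hpow : (x : ℝ) ^ (1 / 2 + δ) = Real.sqrt x * ((x : ℝ) ^ (δ / 2) * (x : ℝ) ^ (δ / 2)) := by
      rw [← Real.rpow_add hx0, Real.sqrt_eq_rpow, ← Real.rpow_add hx0]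
      congr 1
      ring
    rw [e1]
    calc ‖∑ p ∈ op x, Z x (w, (i, j)) p m * hp τ p‖ ≤ (H * (Real.sqrt x * (Real.log x + 1))) * (x : ℝ) ^ (δ / 2) := h4
      _ = Real.sqrt x * ((H * (Real.log x + 1)) * (x : ℝ) ^ (δ / 2)) := by ring
      _ ≤ Real.sqrt x * ((x : ℝ) ^ (δ / 2) * (x : ℝ) ^ (δ / 2)) := by gcongr
      _ = _ := by rw [hpow]

end Pool.Agent.Results.MP_4589ac_nt.FewDigitCurveProducts
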