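import Pool.Agent.X280.HG.LogW

/-!
# The Tauberian Tate conjecture for products of hypersurfaces: the normal law of the averages

Let `V` be the product of `r` hypersurfaces `X_i : F_i = 0` in `ℙ^{n_i + 1}`, of any dimensions `n_i ≥ 1` and
degrees `d_i ≥ 3`, over `ℚ`.  By the formulas of Künneth and Lefschetz `H²(V)` is the sum of the `r` lines
spanned by the classes of the sections of the `X_i`, of the primitive parts of `H²(X_i)` for the surfaces
`X_i`, and of the spaces `H¹(X_i) ⊗ H¹(X_j)`, `i < j`, for the pairs of curves.  The rank of `NS(V)` over `ℚ`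
is `r` for the generic `V`, and the conjecture predicts that
`T⁻¹ ∑_{p ≤ T} b_p(V) log p / p` tends to it.  Let `v` be the number of the surfaces plus the number of the
pairs of curves among the `X_i`, and `v ≥ 1`.  We show that in the family of all products `V` given by forms
`F_i` with integral coefficients of absolute value at most `H` the average
`T⁻¹ ∑_{p ≤ T} b_p(V) log p / p` is `r θ(T) / T` plus an error which has the normal law with mean value `0` and
variance `v ∑_{p ≤ T} (log p)² / T²`, asymptotically `v log T / T`, if `T` and `log H / log T` tend to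
infinity.  The same holds for the primes of arbitrary finite sets and arbitrary weights.

`Mon n d` is the set of the monomials of degree `d` in `n + 1` variables, `Coeff n d` is the set of the
coefficients of the forms `F_i`, and `c ⟨i, μ⟩` is the coefficient of `F_i` at `μ`.  `numPoints` is the number
of the nonzero vectors modulo `p` at which the form vanishes, divided by `p - 1`, i.e. the number of the points
of `X_i` modulo `p`, and
`b2 c p = r p + ∑_{n_i = 2} (#X_i - (p² + p + 1)) + ∑_{i < j, n_i = n_j = 1} (p + 1 - #X_i) (p + 1 - #X_j)`,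
the trace of Frobenius on `H²(V)` if the reductions are smooth; we use the same number for the other
primes.  `vdim n` is the number `v`.
-/

set_option autoImplicit false

namespace Pool.Agent.Results.MP_4589ac_nt.ProductsOfHypersurfaces

open Pool.Agent.Y722.HS Pool.Agent.X280.HG ProbabilityTheory

/-- Let `n_i ≥ 1`, `d_i ≥ 3` and `v ≥ 1`, `u` real and `ε > 0`.

(1) For `δ > 0` there is a `K` such that for all finite sets `P` of at least `K` primes `p ≤ y`, all weights
`w(p) ∈ [-1, 1]` with `∑ w(p)² ≥ δ |P|` and all `H ≥ y^K` the proportion, among the tuples of forms `F_i` of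
degree `d_i` in `n_i + 2` variables with integral coefficients of absolute value at most `H`, of those with
`∑_{p ∈ P} w(p) (b_p / p - r) ≤ u √(v ∑ w(p)²)` differs by at most `ε` from the probability that a standard
normal variable is at most `u`.

(2) There is a `K` such that for all `T ≥ K` and `H ≥ T^K` the proportion of those with
`T⁻¹ ∑_{p ≤ T} b_p log p / p ≤ r θ(T) / T + u √(v ∑_{p ≤ T} (log p)²) / T` differs by at most `ε` from this
probability. -/
theorem result (r : ℕ) (n d : Fin r → ℕ) (hn : ∀ i, 1 ≤ n i) (hd : ∀ i, 3 ≤ d i)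
    (hv : 1 ≤ vdim n) (u ε : ℝ) (hε : 0 < ε) :
    (∀ δ : ℝ, 0 < δ → ∃ K : ℕ, ∀ (P : Finset ℕ) (w : ℕ → ℝ) (y H : ℕ),
      (∀ p ∈ P, p.Prime ∧ p ≤ y) → (∀ p ∈ P, |w p| ≤ 1) → δ * P.card ≤ ∑ p ∈ P, w p ^ 2 →
      K ≤ P.card → y ^ K ≤ H →
      |({c : Coeff n d → ℤ | (∀ μ, |c μ| ≤ H) ∧
        ∑ p ∈ P, w p * (b2 c p / p - r) ≤ u * √(vdim n * ∑ p ∈ P, w p ^ 2)}.ncard : ℝ) /
        (2 * H + 1 : ℝ) ^ Fintype.card (Coeff n d) - (gaussianReal 0 1).real (Set.Iic u)| ≤ ε) ∧
    ∃ K : ℕ, ∀ T H : ℕ, K ≤ T → T ^ K ≤ H →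
      |({c : Coeff n d → ℤ | (∀ μ, |c μ| ≤ H) ∧ tateAverage c T ≤
        r * thetaAverage T + u * (√(vdim n * ∑ p ∈ primesUpTo T, Real.log p ^ 2) / T)}.ncard : ℝ) /
        (2 * H + 1 : ℝ) ^ Fintype.card (Coeff n d) - (gaussianReal 0 1).real (Set.Iic u)| ≤ ε :=
  ⟨fun δ hδ => law_b2 n d hn hd hv δ hδ u ε hε, law_tate n d hn hd hv u ε hε⟩

end Pool.Agent.Results.MP_4589ac_nt.ProductsOfHypersurfaces
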