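import Pool.Agent.X35.GV.Centered

/-!
# The averages of the Tauberian Tate conjecture for the members `V_n` of ALL families of products of hyperelliptic curves, compared with those of
the whole family, at all heights, for ALL integers `n` near `± α v_i`, outside a set of `α` of small dimension
-/

set_option autoImplicit false

namespace Pool.Agent.Results.MP_4589ac_nt.SpecializationNearSequences

open Finset Polynomial

/-- The polynomial `f(X, t)` over `𝔽_p`, for `f(X, T) ∈ ℤ[T][X]` and `t ∈ 𝔽_p`. -/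
noncomputable def fibre (p : ℕ) (f : ℤ[X][X]) (t : ZMod p) : (ZMod p)[X] := f.map (eval₂RingHom (Int.castRingHom (ZMod p)) t)

/-- The trace of Frobenius on `H¹` of the curve `C_t : Y² = f(X, t)` over `𝔽_p`: `p` minus the number of its affine points (there is one point at
infinity, for `f` monic of odd degree in `X`). -/
noncomputable def traceH1 (p : ℕ) (f : ℤ[X][X]) (t : ZMod p) : ℤ := p - Nat.card {P : ZMod p × ZMod p // P.2 ^ 2 = (fibre p f t).eval P.1}

/-- The trace `b_p(V_t) = r p + ∑_{i < j} a_p(C_{i,t}) a_p(C_{j,t})` of Frobenius on `H²` of the product `V_t = C_{1,t} × ... × C_{r,t}` of the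
curves `C_{i,t} : Y² = f_i(X, t)`. -/
noncomputable def traceH2 (p : ℕ) {r : ℕ} (f : Fin r → ℤ[X][X]) (t : ZMod p) : ℤ :=
  r * p + ∑ i : Fin r, ∑ j ∈ univ.filter (fun j => i < j), traceH1 p (f i) t * traceH1 p (f j) t

/-- The average of `b_p(V_t)` over the points `t = 0, ..., p - 1` of the base of the family. -/
noncomputable def fibreAverage (p : ℕ) {r : ℕ} (f : Fin r → ℤ[X][X]) : ℝ := (∑ t ∈ range p, (traceH2 p f (t : ZMod p) : ℝ)) / p

/-- The sum of `(b_p(V_n) - 𝔅_p) / p · (log p) p ^ (- i σ)` over the odd primes `p ≤ x`. -/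
noncomputable def difference {r : ℕ} (f : Fin r → ℤ[X][X]) (n : ℤ) (x : ℕ) (σ : ℝ) : ℂ :=
  ∑ p ∈ (range (x + 1)).filter (fun p => p.Prime ∧ p ≠ 2),
    ((((traceH2 p f (n : ZMod p) : ℝ) - fibreAverage p f) / p * Real.log p : ℝ) : ℂ) * (p : ℂ) ^ (-(σ * Complex.I))

lemma traceH1_bound (f : ℤ[X][X]) (hm : f.Monic) (ho : Odd f.natDegree) (p : ℕ) (hp : p.Prime) (h2 : p ≠ 2) (t : ZMod p) :
    |(traceH1 p f t : ℝ)| ≤ f.natDegree * √p := by
  have h := Pool.Agent.X35.GV.tr1_bound f hm ho p hp h2 t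
  have e : Pool.Agent.X35.GV.tr1 f p t = (traceH1 p f t : ℝ) := by
    unfold Pool.Agent.X35.GV.tr1 traceH1
    simp only [one_mul]
    rfl
  rw [e] at h
  exact h

/-- a bound for `b_p / p` -/
noncomputable def bound {r : ℕ} (f : Fin r → ℤ[X][X]) : ℝ :=
  1 + r + ∑ i : Fin r, ∑ j ∈ univ.filter (fun j => i < j), ((f i).natDegree : ℝ) * (f j).natDegree

lemma bound_pos {r : ℕ} (f : Fin r → ℤ[X][X]) : 0 < bound f := by
  unfold bound
  positivity

lemma traceH2_bound {r : ℕ} (f : Fin r → ℤ[X][X]) (hf : ∀ i, (f i).Monic ∧ Odd (f i).natDegree) (p : ℕ) (hp : p.Prime) (h2 : p ≠ 2)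
    (t : ZMod p) : |(traceH2 p f t : ℝ)| ≤ bound f * p := by
  unfold traceH2 bound
  push_cast
  have hp0 : (0 : ℝ) < p := by exact_mod_cast hp.pos
  have h1 : |∑ i : Fin r, ∑ j ∈ univ.filter (fun j => i < j), (traceH1 p (f i) t : ℝ) * (traceH1 p (f j) t : ℝ)| ≤
      (∑ i : Fin r, ∑ j ∈ univ.filter (fun j => i < j), ((f i).natDegree : ℝ) * (f j).natDegree) * p := by
    rw [sum_mul]
    refine (abs_sum_le_sum_abs _ _).trans (sum_le_sum fun i _ => ?_)
    rw [sum_mul]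
    refine (abs_sum_le_sum_abs _ _).trans (sum_le_sum fun j _ => ?_)
    rw [abs_mul]
    have h3 := traceH1_bound (f i) (hf i).1 (hf i).2 p hp h2 t
    have h4 := traceH1_bound (f j) (hf j).1 (hf j).2 p hp h2 t
    calc _ ≤ ((f i).natDegree * √(p : ℝ)) * ((f j).natDegree * √(p : ℝ)) := mul_le_mul h3 h4 (abs_nonneg _) (by positivity)
      _ = (f i).natDegree * (f j).natDegree * (√(p : ℝ) * √(p : ℝ)) := by ring
      _ = _ := by rw [Real.mul_self_sqrt hp0.le]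
  refine (abs_add_le _ _).trans ?_
  rw [abs_of_nonneg (by positivity : (0 : ℝ) ≤ r * p)]
  nlinarith

/-- Let `δ > 0` and `A ≥ 0`. There are `κ > 0` and `C > 0` such that for all reals `v_i ≥ 1` with `∑ v_i ^ (-u) < ∞` for all `u > τ` (`τ ≥ 0`;
for example `v_i = 2 ^ i`, `τ = 0`) and all `θ < 1` there is a set `E` of reals of Hausdorff dimension at most `(1 - κ + τ) / (1 - θ)` with the
following property. For every real `α > 0` outside `E`, ALL `r`, ALL `f_1, ..., f_r ∈ ℤ[T][X]`, monic of odd degree in `X`, all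
`i ≥ i₀(α, f)`, ALL integers `n` with `||n| - α v_i| ≤ v_i ^ θ`, ALL integers `x` with `(log |n|) ^ C ≤ x ≤ |n| ^ κ` and ALL real `σ` with
`|σ| ≤ x ^ A`, the sum of `(b_p(V_n) - 𝔅_p) (log p) p ^ (- 1 - i σ)` over the odd primes `p ≤ x` is at most `x ^ (1 / 2 + δ)` in absolute value,
for `V_n` the product of the curves `Y² = f_i(X, n)` and `𝔅_p` the average of `b_p(V_t)` over `t ∈ 𝔽_p`. -/
theorem result (δ A : ℝ) (hδ : 0 < δ) (hA : 0 ≤ A) :
    ∃ κ C : ℝ, 0 < κ ∧ 0 < C ∧ ∀ (v : ℕ → ℝ) (τ θ : ℝ), (∀ i, 1 ≤ v i) → 0 ≤ τ → θ < 1 →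
      (∀ u : ℝ, τ < u → Summable (fun i => v i ^ (-u))) →
      ∃ E : Set ℝ, dimH E ≤ ENNReal.ofReal ((1 - κ + τ) / (1 - θ)) ∧
        ∀ α : ℝ, 0 < α → α ∉ E → ∀ (r : ℕ) (f : Fin r → ℤ[X][X]), (∀ i, (f i).Monic ∧ Odd (f i).natDegree) →
          ∃ i₀ : ℕ, ∀ i : ℕ, i₀ ≤ i → ∀ n : ℤ, |(|(n : ℝ)|) - α * v i| ≤ v i ^ θ →
            ∀ x : ℕ, Real.log |(n : ℝ)| ^ C ≤ x → (x : ℝ) ≤ |(n : ℝ)| ^ κ → ∀ σ : ℝ, |σ| ≤ (x : ℝ) ^ A →
              ‖difference f n x σ‖ ≤ (x : ℝ) ^ (1 / 2 + δ) := by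
  classical
  obtain ⟨κ, C, hκ, hC, H⟩ := Pool.Agent.X35.GV.centered_seq δ A 0 hδ hA le_rfl
  refine ⟨κ, C, hκ, hC, fun v τ θ hv1 hτ hθ hv => ?_⟩
  let Γ : Type := {c : Σ r : ℕ, (Fin r → ℤ[X][X]) // ∀ i, (c.2 i).Monic ∧ Odd (c.2 i).natDegree}
  have hcount : Countable Γ := by
    have h0 := Pool.Agent.X35.GM.countable_int_poly
    have h1 : Countable ℤ[X][X] := by
      rw [← Cardinal.mk_le_aleph0_iff]
      exact Polynomial.cardinalMk_le_max.trans (max_le Cardinal.mk_le_aleph0 le_rfl)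
    exact Subtype.countable
  obtain ⟨E, hE1, hE2⟩ := H v τ θ hv1 hτ hθ hv Γ (fun c p n => (traceH2 p c.1.2 (n : ZMod p) : ℝ) / p) (fun c => bound c.1.2)
    (fun c => bound_pos c.1.2)
    (by
      intro c p hp h2 m m' h
      rw [(ZMod.intCast_eq_intCast_iff m m' p).2 h])
    (by
      intro c p hp h2 n
      have hp0 : (0 : ℝ) < p := by exact_mod_cast hp.pos
      rw [Real.rpow_zero, mul_one, abs_div, abs_of_pos hp0, div_le_iff₀ hp0]
      exact traceH2_bound c.1.2 c.2 p hp h2 (n : ZMod p))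
  refine ⟨E, hE1, fun α hα hαE r f hf => ?_⟩
  obtain ⟨i₁, hi₁⟩ := hE2 α hα hαE ⟨⟨r, f⟩, hf⟩
  refine ⟨i₁, fun i hi n hn x hx1 hx2 σ hσ => ?_⟩
  have h1 := hi₁ i hi n hn x hx1 hx2 σ hσ
  rw [zero_add] at h1
  have hd : difference f n x σ = ∑ p ∈ Pool.Agent.X35.GV.op x,
      ((((traceH2 p f (n : ZMod p) : ℝ) / p - Pool.Agent.X35.GV.avg p (fun n => (traceH2 p f (n : ZMod p) : ℝ) / p)) *
        Real.log p : ℝ) : ℂ) * (p : ℂ) ^ (-(σ * Complex.I)) := by
    unfold difference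
    refine sum_congr rfl fun p _ => ?_
    have h2 : Pool.Agent.X35.GV.avg p (fun n => (traceH2 p f (n : ZMod p) : ℝ) / p) = fibreAverage p f / p := by
      unfold Pool.Agent.X35.GV.avg fibreAverage
      simp only [Int.cast_natCast]
      rw [← sum_div]
    rw [h2, sub_div]
  rw [hd]
  exact h1

end Pool.Agent.Results.MP_4589ac_nt.SpecializationNearSequences
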